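import Pool.Agent.Y912.OP.Large
import Pool.Agent.Results.MP_ec11a7_an.OpeningConstant

/-!
Opening (gap) of subspaces and equality of dimensions: the constant `13/20` works.

Idea.  Let `G₁` have a dense subset of size `κ` and `G₂` none.  The starting result averages many
generic vectors `w` of `G₂`: a generic `y` of `G₂` satisfies `‖y - W - g‖ ≤ 2 a ^ 2` for an average
`W` and some `g` in `G₁` which has norm at most `2 a ^ 2` by telescoping, so `2 a ^ 2 (1 + a) ≥ 1`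
(`a ≥ 0.565`).  Here the argument is iterated: at each level `k` there are further vectors `g k` of
`G₁` and `U k` of `G₂` with `‖y - W - U k - g k‖ ≤ ρ k` and, by telescoping again,
`‖g k + U k‖ ≤ ρ k`.  The weights with which the levels are mixed are products of Catalan numbers;
for these the vectors `g k + U k` cancel, except for the last one.
-/

set_option autoImplicit false

namespace Pool.Agent.Results.MP_ec11a7_an.OpeningThirteenTwentieths

open Cardinal Set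
open Pool.Agent.Results.MP_ec11a7_an.OpeningConstant

universe u v

variable {𝕜 : Type v} [RCLike 𝕜] {E : Type u} [NormedAddCommGroup E] [NormedSpace 𝕜 E]

theorem approx {G₁ G₂ : Submodule 𝕜 E} (h : opening G₁ G₂ < 13 / 20) :
    ∀ x ∈ G₁, x ≠ 0 → ∃ y ∈ G₂, ‖x - y‖ < 13 / 20 * ‖x‖ := by
  intro x hx hx0
  have hn : (0 : ℝ) < ‖x‖ := norm_pos_iff.mpr hx0
  set c : 𝕜 := ((‖x‖ : ℝ) : 𝕜)⁻¹ with hc
  have hcn : ‖c‖ = ‖x‖⁻¹ := by rw [hc, norm_inv, RCLike.norm_ofReal, abs_of_pos hn]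
  have hu1 : ‖c • x‖ = 1 := by rw [norm_smul, hcn]; exact inv_mul_cancel₀ hn.ne'
  have hbdd : BddAbove (range fun x : {x : E // x ∈ G₁ ∧ ‖x‖ = 1} => rho (x : E) G₂) := by
    refine ⟨1, ?_⟩
    rintro _ ⟨z, rfl⟩
    exact (rho_le_norm _ _).trans z.2.2.le
  have h1 : rho (c • x) G₂ < 13 / 20 := by
    refine lt_of_le_of_lt ?_ h
    exact (le_ciSup hbdd ⟨c • x, G₁.smul_mem c hx, hu1⟩).trans (le_max_left _ _)
  have hne : (G₂ : Set E).Nonempty := ⟨0, G₂.zero_mem⟩
  obtain ⟨y, hy, hxy⟩ := (Metric.infDist_lt_iff hne).mp h1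
  have hcc : ((‖x‖ : ℝ) : 𝕜) * c = 1 := by
    rw [hc]
    exact mul_inv_cancel₀ (by simpa using hx0)
  refine ⟨((‖x‖ : ℝ) : 𝕜) • y, G₂.smul_mem _ hy, ?_⟩
  have h2 : x - ((‖x‖ : ℝ) : 𝕜) • y = ((‖x‖ : ℝ) : 𝕜) • (c • x - y) := by
    rw [smul_sub, smul_smul, hcc, one_smul]
  rw [h2, norm_smul, RCLike.norm_ofReal, abs_of_pos hn]
  rw [dist_eq_norm] at hxy
  nlinarith

theorem density_le {G₁ G₂ : Submodule 𝕜 E} (h₁ : G₁ ≠ ⊥) (h : opening G₁ G₂ < 13 / 20) :
    densityCharacter G₂ ≤ densityCharacter G₁ := by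
  have hκ := aleph0_le_density h₁
  obtain ⟨D, hD, hDc⟩ : densityCharacter G₁ ∈ {c | ∃ s : Set G₁, Dense s ∧ #s = c} :=
    csInf_mem ⟨_, Set.univ, dense_univ, rfl⟩
  have h' : opening G₂ G₁ < 13 / 20 := by rwa [opening_comm]
  obtain ⟨s, hs, hsκ, hG⟩ := Pool.Agent.Y912.OP.key (𝕜 := 𝕜)
    (κ := densityCharacter G₁) hκ (G₁ := G₁) (G₂ := G₂)
    (D := insert 0 ((fun x : G₁ => (x : E)) '' D)) (by
      rintro x (rfl | ⟨x, -, rfl⟩)
      · exact G₁.zero_mem
      · exact x.2)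
    (by
      refine mk_insert_le.trans ?_
      calc #((fun x : G₁ => (x : E)) '' D) + 1 ≤ densityCharacter G₁ + densityCharacter G₁ :=
            add_le_add (mk_image_le.trans hDc.le) (one_le_aleph0.trans hκ)
        _ = densityCharacter G₁ := add_eq_self hκ)
    (by
      intro x hx
      rcases eq_or_ne x 0 with rfl | hx0
      · exact ⟨0, G₂.zero_mem, by simp⟩
      · obtain ⟨y, hy, hxy⟩ := approx h x hx hx0
        exact ⟨y, hy, hxy.le⟩)
    (by
      intro y hy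
      rcases eq_or_ne y 0 with rfl | hy0
      · exact ⟨0, mem_insert _ _, by simp⟩
      · obtain ⟨x, hx, hxy⟩ := approx h' y hy hy0
        obtain ⟨d, hd, hxd⟩ := hD.exists_dist_lt (⟨x, hx⟩ : G₁) (sub_pos.mpr hxy)
        refine ⟨d, mem_insert_of_mem _ ⟨d, hd, rfl⟩, ?_⟩
        rw [Subtype.dist_eq, dist_eq_norm] at hxd
        calc ‖y - d‖ = ‖(y - x) + (x - d)‖ := by congr 1; abel
          _ ≤ ‖y - x‖ + ‖x - d‖ := norm_add_le _ _
          _ ≤ 13 / 20 * ‖y‖ := by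
            simp only at hxd
            linarith)
  exact density_le_of_span hκ hs hsκ hG

/-- the finite-dimensional case (Krein, Krasnoselsky, Milman) -/
theorem finite_case {G₁ G₂ : Submodule 𝕜 E} [FiniteDimensional 𝕜 G₁]
    (h : opening G₁ G₂ < 13 / 20) :
    FiniteDimensional 𝕜 G₂ ∧ Module.finrank 𝕜 G₂ ≤ Module.finrank 𝕜 G₁ := by
  by_contra hcon
  have hrank : ((Module.finrank 𝕜 G₁ + 1 : ℕ) : Cardinal.{u}) ≤ Module.rank 𝕜 G₂ := by
    by_cases hfd : FiniteDimensional 𝕜 G₂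
    · have h1 : Module.finrank 𝕜 G₁ < Module.finrank 𝕜 G₂ := by
        by_contra h2
        exact hcon ⟨hfd, not_lt.mp h2⟩
      rw [← Module.finrank_eq_rank]
      exact_mod_cast h1
    · have h1 : ℵ₀ ≤ Module.rank 𝕜 G₂ := by
        by_contra h2
        exact hfd (Module.rank_lt_aleph0_iff.mp (not_le.mp h2))
      exact (Cardinal.natCast_le_aleph0).trans h1
  obtain ⟨v, hv⟩ := Module.le_rank_iff.mp hrank
  set v' : Fin (Module.finrank 𝕜 G₁ + 1) → E := fun i => (v i : E) with hv'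
  have hv'i : LinearIndependent 𝕜 v' := hv.map' G₂.subtype (Submodule.ker_subtype _)
  set W : Submodule 𝕜 E := Submodule.span 𝕜 (range v') with hW
  have hWfin : Module.finrank 𝕜 W = Module.finrank 𝕜 G₁ + 1 := by
    rw [hW, finrank_span_eq_card hv'i, Fintype.card_fin]
  have hWG : W ≤ G₂ := by
    rw [hW, Submodule.span_le]
    rintro _ ⟨i, rfl⟩
    exact (v i).2
  have : FiniteDimensional 𝕜 W := FiniteDimensional.span_of_finite 𝕜 (finite_range v')
  have happ := approx (G₁ := G₂) (G₂ := G₁) (by rwa [opening_comm])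
  let : NormedSpace ℝ E := NormedSpace.restrictScalars ℝ 𝕜 E
  have : IsScalarTower ℝ 𝕜 E := ⟨fun r c x => by
    change (r • c) • x = (algebraMap ℝ 𝕜 r) • (c • x)
    rw [smul_smul, Algebra.smul_def]⟩
  have : Module.Finite ℝ G₁ := Module.Finite.trans 𝕜 G₁
  have : Module.Finite ℝ W := Module.Finite.trans 𝕜 W
  have : FiniteDimensional ℝ (G₁.restrictScalars ℝ) := ‹Module.Finite ℝ G₁›
  have : FiniteDimensional ℝ (W.restrictScalars ℝ) := ‹Module.Finite ℝ W›
  have h1 : Module.finrank ℝ (G₁.restrictScalars ℝ) =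
      Module.finrank ℝ 𝕜 * Module.finrank 𝕜 G₁ := (Module.finrank_mul_finrank ℝ 𝕜 G₁).symm
  have h2 : Module.finrank ℝ (W.restrictScalars ℝ) =
      Module.finrank ℝ 𝕜 * Module.finrank 𝕜 W := (Module.finrank_mul_finrank ℝ 𝕜 W).symm
  have h3 : 0 < Module.finrank ℝ 𝕜 := Module.finrank_pos
  refine Pool.Agent.Helper325.KKMFinite.kkm_real (G₁.restrictScalars ℝ) (W.restrictScalars ℝ) ?_ ?_
  · rw [h1, h2, hWfin]
    exact Nat.mul_lt_mul_of_pos_left (Nat.lt_succ_self _) h3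
  · intro y hy hy0
    have hn : 0 < ‖y‖ := norm_pos_iff.mpr hy0
    obtain ⟨x, hx, hxy⟩ := happ y (hWG hy) hy0
    exact ⟨x, hx, by linarith⟩

/-- **Main theorem.**  For all nonzero subspaces `G₁, G₂` of any real or complex normed space,
`θ(G₁, G₂) < 13/20` implies `dim G₁ = dim G₂`. -/
theorem result :
    ∀ (𝕜 : Type v) [RCLike 𝕜] (E : Type u) [NormedAddCommGroup E] [NormedSpace 𝕜 E]
      (G₁ G₂ : Submodule 𝕜 E), G₁ ≠ ⊥ → G₂ ≠ ⊥ → opening G₁ G₂ < 13 / 20 →
        dimension G₁ = dimension G₂ := by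
  intro 𝕜 _ E _ _ G₁ G₂ h₁ h₂ h
  have h' : opening G₂ G₁ < 13 / 20 := by rwa [opening_comm]
  by_cases hf₁ : FiniteDimensional 𝕜 G₁
  · obtain ⟨hf₂, hle⟩ := finite_case (𝕜 := 𝕜) h
    obtain ⟨-, hle'⟩ := finite_case (𝕜 := 𝕜) h'
    rw [dimension, dimension, if_pos hf₁, if_pos hf₂, le_antisymm hle' hle]
  · have hf₂ : ¬ FiniteDimensional 𝕜 G₂ := by
      intro hf₂
      exact hf₁ (finite_case (𝕜 := 𝕜) h').1
    rw [dimension, dimension, if_neg hf₁, if_neg hf₂]
    exact le_antisymm (density_le h₂ h') (density_le h₁ h)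

end Pool.Agent.Results.MP_ec11a7_an.OpeningThirteenTwentieths
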